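import Mathlib

set_option autoImplicit false

namespace Pool.Agent.Results.MP_41e59e_gt.NoSuitable

open Filter Topology Set Cardinal Function

/-- suitable set of a topological group (written additively) -/
def Suitable {G : Type} [AddGroup G] [TopologicalSpace G] (S : Set G) : Prop :=
  DiscreteTopology S ∧ IsClosed (S ∪ {0}) ∧ Dense (AddSubgroup.closure S : Set G)

lemma ub {c : Cardinal.{0}} (hc : ℵ₀ ≤ c) {ι : Type} (h : #ι ≤ c) (f : ι → (Order.succ c).ord.ToType) :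
    ∃ b, ∀ i, f i < b := by
  by_contra! hb
  have := Order.cof_le (s := range f) fun b => (hb b).elim fun i hi => ⟨_, ⟨i, rfl⟩, hi⟩
  rw [Ordinal.cof_toType, (isRegular_succ hc).cof_ord] at this
  exact (Order.lt_succ c).not_ge (this.trans (mk_range_le.trans h))

lemma small {c : Cardinal.{0}} (b : (Order.succ c).ord.ToType) : #(Iio b) ≤ c :=
  Order.lt_succ_iff.1 ((mk_Iio_lt b (by simp)).trans_eq (by simp))

abbrev K := (Order.succ 𝔠 : Cardinal.{0}).ord.ToType

lemma chain (W : Type) [LinearOrder W] [WellFoundedLT W] [Nonempty W] (hW : #W ≤ 𝔠) (F : K → K) :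
    ∃ (g : W → K) (β : K), StrictMono g ∧ (∀ η ξ, η < ξ → F (g η) < g ξ) ∧ (∀ ξ, g ξ < β) ∧
      ∀ γ < β, ∃ ξ, γ ≤ g ξ := by
  choose u hu using fun (ξ : W) (f : Iio ξ → K) =>
    ub aleph0_le_continuum ((mk_subtype_le _).trans hW) fun η : Iio ξ => max (f η) (F (f η))
  let g : W → K := WellFoundedLT.fix fun ξ r => u ξ fun η => r η.1 η.2
  have hg : ∀ η ξ, η < ξ → max (g η) (F (g η)) < g ξ := fun η ξ h => by
    rw [show g ξ = u ξ fun η => g η.1 from WellFoundedLT.fix_eq _ ξ]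
    exact hu ξ (fun η => g η.1) ⟨η, h⟩
  obtain ⟨β, h1, h2⟩ := wellFounded_lt.has_min {b | ∀ ξ, g ξ < b} (ub aleph0_le_continuum hW g)
  exact ⟨g, β, fun η ξ h => (max_lt_iff.1 (hg η ξ h)).1, fun η ξ h => (max_lt_iff.1 (hg η ξ h)).2, h1,
    fun γ hγ => by by_contra! h; exact h2 γ h hγ⟩

/-- countably supported integer functions on `K`, ordered lexicographically -/
def A : AddSubgroup (Lex (K → ℤ)) where
  carrier := {f | (support (ofLex f)).Countable}
  zero_mem' := by simp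
  add_mem' := fun ha hb => (ha.union hb).mono (support_add _ _)
  neg_mem' := fun {x} h => Countable.mono (support_neg (ofLex x)).le h

noncomputable instance : TopologicalSpace A := Preorder.topology A
instance : OrderTopology A := ⟨rfl⟩

def N (x : A) (α : K) : Set A := {y | ∀ i < α, y.1 i = x.1 i}

noncomputable def ind (s : Set K) (h : s.Countable) : A :=
  ⟨toLex (s.indicator 1), h.mono (support_indicator_subset)⟩

noncomputable def e (α : K) : A := ind {α} (countable_singleton α)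

lemma e_pos (α : K) : 0 < e α :=
  ⟨α, fun j hj => (indicator_of_notMem (s := {α}) hj.ne _).symm,
    (show (0 : ℤ) < 1 from one_pos).trans_eq (indicator_of_mem (s := {α}) rfl (1 : K → ℤ)).symm⟩

lemma e_lt {α i : K} (h : i < α) : (e α).1 i = 0 := indicator_of_notMem (s := {α}) h.ne _

lemma N_open (x : A) (α : K) : IsOpen (N x α) := isOpen_iff_mem_nhds.2 fun y hy => by
  refine mem_of_superset (Ioo_mem_nhds (sub_lt_self y (e_pos α)) (lt_add_of_pos_right y (e_pos α)))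
    fun z hz i hi => ?_
  rw [← hy i hi]
  by_contra hne
  obtain ⟨j, h1, h2⟩ := wellFounded_lt.has_min {j | z.1 j ≠ y.1 j} ⟨i, hne⟩
  have h3 : j < α := (not_lt.1 fun h => h2 i hne h).trans_lt hi
  have h4 : ∀ k < j, z.1 k = y.1 k := fun k hk => by_contra fun h => h2 k h hk
  rcases lt_or_gt_of_ne h1 with h | h
  · exact hz.1.not_gt ⟨j, fun k hk => by
      rw [h4 k hk]; exact ((congrArg (y.1 k - ·) (e_lt (hk.trans h3))).trans (sub_zero _)).symm,
      h.trans_eq ((congrArg (y.1 j - ·) (e_lt h3)).trans (sub_zero _)).symm⟩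
  · exact hz.2.not_gt ⟨j, fun k hk => by
      rw [h4 k hk]; exact (congrArg (y.1 k + ·) (e_lt (hk.trans h3))).trans (add_zero _),
      ((congrArg (y.1 j + ·) (e_lt h3)).trans (add_zero _)).trans_lt h⟩

lemma succ (i : K) : ∃ j, i < j := (ub aleph0_le_continuum (ι := Unit)
  (by simpa using one_lt_aleph0.le.trans aleph0_le_continuum) fun _ => i).imp fun _ h => h ()

lemma N_sub {x : A} {U : Set A} (h : U ∈ 𝓝 x) (α0 : K) : ∃ α, N x α ⊆ U := by
  obtain ⟨a, b, ⟨⟨i, h1, h2⟩, ⟨j, h3, h4⟩⟩, h5⟩ := (mem_nhds_iff_exists_Ioo_subset'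
    ⟨_, sub_lt_self x (e_pos α0)⟩ ⟨_, lt_add_of_pos_right x (e_pos α0)⟩).1 h
  obtain ⟨α, hα⟩ := succ (max i j)
  rw [max_lt_iff] at hα
  exact ⟨α, fun y hy => h5 ⟨⟨i, fun k hk => (h1 k hk).trans (hy k (hk.trans hα.1)).symm,
    h2.trans_eq (hy i hα.1).symm⟩, ⟨j, fun k hk => (hy k (hk.trans hα.2)).trans (h3 k hk),
    (hy j hα.2).trans_lt h4⟩⟩⟩

lemma N_closed (x : A) (α : K) : IsClosed (N x α) := ⟨isOpen_iff_mem_nhds.2 fun y hy =>
  mem_of_superset ((N_open y α).mem_nhds fun _ _ => rfl) fun _ hz h =>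
    hy fun i hi => (hz i hi).symm.trans (h i hi)⟩

lemma count (β : K) : #{x : A // support (ofLex x.1) ⊆ Iio β} ≤ 𝔠 := by
  refine le_trans (mk_le_of_injective (f := fun x => (⟨(fun i => (i, x.1.1 i)) '' support (ofLex x.1.1),
      fun _ ⟨i, hi, h⟩ => h ▸ ⟨x.2 hi, trivial⟩, mk_image_le.trans (le_aleph0_iff_set_countable.2 x.1.2)⟩ :
      {t : Set (K × ℤ) // t ⊆ Iio β ×ˢ Set.univ ∧ #t ≤ ℵ₀})) fun x y h => ?_)
    ((mk_bounded_subset_le _ _).trans ?_)
  · have h := Set.ext_iff.1 (congrArg Subtype.val h)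
    refine Subtype.ext (Subtype.ext (funext fun i => ?_))
    by_cases h1 : x.1.1 i = 0
    · by_contra h2
      obtain ⟨j, -, h3⟩ := (h (i, y.1.1 i)).2 ⟨i, fun h => h2 (h1.trans h.symm), rfl⟩
      obtain ⟨rfl, h4⟩ := Prod.ext_iff.1 h3
      exact h2 h4
    · obtain ⟨j, -, h3⟩ := (h (i, x.1.1 i)).1 ⟨i, h1, rfl⟩
      obtain ⟨rfl, h4⟩ := Prod.ext_iff.1 h3
      exact h4.symm
  · refine (power_le_power_right (max_le ?_ aleph0_le_continuum)).trans continuum_power_aleph0.le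
    rw [mk_setProd]
    simpa using mul_le_mul' (small β) (le_refl ℵ₀)

lemma bdd (D : Set A) (h : ∀ x, ∃ α, D ∩ N x α ⊆ {x}) : ∃ β, ∀ s ∈ D, support (ofLex s.1) ⊆ Iio β := by
  choose α hα using h
  choose F hF using fun β => ub aleph0_le_continuum (count β) fun x => α x.1
  have : Nonempty (Order.succ ℵ₀ : Cardinal.{0}).ord.ToType := (ub le_rfl (ι := Empty) (by simp) nofun).nonempty
  obtain ⟨g, β, h1, h2, h3, h4⟩ := chain (Order.succ ℵ₀ : Cardinal.{0}).ord.ToType
    (by simpa using aleph_one_le_continuum) F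
  refine ⟨β, fun s hs => ?_⟩
  let x : A := ⟨toLex ((Iio β).indicator (ofLex s.1)), Countable.mono
    (fun i hi (h : s.1 i = 0) => hi (indicator_apply_eq_zero.2 fun _ => h)) s.2⟩
  have hx : support (ofLex x.1) ⊆ Iio β := support_indicator_subset
  choose ξ hξ using fun i : support (ofLex x.1) => h4 i (hx i.2)
  obtain ⟨η, hη⟩ := ub le_rfl (le_aleph0_iff_set_countable.2 x.2) ξ
  obtain ⟨ζ, hζ⟩ := ub le_rfl (ι := Unit) (by simp) fun _ => η
  have := (hF (g η) ⟨x, fun i hi => (hξ ⟨i, hi⟩).trans_lt (h1 (hη _))⟩).trans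
    ((h2 _ _ (hζ ())).trans (h3 _))
  rwa [show s = x from hα x ⟨hs, fun i hi => (indicator_of_mem (s := Iio β) (hi.trans this) _).symm⟩]

lemma main (S : Set A) (h1 : DiscreteTopology S) (h2 : IsClosed (S ∪ {0})) :
    ¬ Dense (AddSubgroup.closure S : Set A) := fun h3 => by
  choose F hF using fun α => bdd (S \ N 0 α) fun x => by
    by_cases hx : x ∈ N 0 α
    · exact ⟨α, fun y hy => (hy.1.2 fun i hi => (hy.2 i hi).trans (hx i hi)).elim⟩
    by_cases hS : x ∈ S
    · obtain ⟨U, hU, h⟩ := nhds_inter_eq_singleton_of_mem_discrete (isDiscrete_iff_discreteTopology.2 h1) hS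
      exact (N_sub hU α).imp fun β hβ y hy => h.le ⟨hβ hy.2, hy.1.1⟩
    · exact (N_sub (h2.isOpen_compl.mem_nhds (show x ∉ S ∪ {0} by
        rintro (h | rfl); exacts [hS h, hx fun _ _ => rfl])) α).imp fun β hβ y hy =>
          (hβ hy.2 (Or.inl hy.1.1)).elim
  obtain ⟨g, β, g1, g2, g3, g4⟩ := chain ℕ (by simpa using aleph0_le_continuum) F
  obtain ⟨y, y1, y2⟩ := h3.inter_open_nonempty _ (N_open (ind (range g) (countable_range g)) β)
    ⟨_, fun _ _ => rfl⟩
  obtain ⟨n, hn⟩ : ∃ n, ∀ i, g n ≤ i → i < β → y.1 i = 0 := by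
    refine AddSubgroup.closure_induction (p := fun y _ => ∃ n, ∀ i, g n ≤ i → i < β → y.1 i = 0)
      (fun s hs => ?_) ⟨0, fun _ _ _ => rfl⟩ ?_ ?_ y2
    · by_cases h : s ∈ N 0 β
      · exact ⟨0, fun i _ hi => h i hi⟩
      simp only [N, mem_ofPred, not_forall] at h
      obtain ⟨i, i1, i2⟩ := h
      obtain ⟨n, hn⟩ := g4 i i1
      exact ⟨n + 2, fun j hj _ => by_contra fun hne => (((hF (g (n + 1)) s ⟨hs, fun h => i2 (h i
        (hn.trans_lt (g1 n.lt_succ_self)))⟩ hne).trans (g2 _ _ (n + 1).lt_succ_self)).trans_le hj).false⟩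
    · rintro a b - - ⟨m, hm⟩ ⟨n, hn⟩
      exact ⟨max m n, fun i h h' => (congrArg₂ (· + ·) (hm i ((g1.monotone (le_max_left _ _)).trans h) h')
        (hn i ((g1.monotone (le_max_right _ _)).trans h) h'))⟩
    · rintro a - ⟨m, hm⟩
      exact ⟨m, fun i h h' => congrArg Neg.neg (hm i h h')⟩
  have := (hn _ le_rfl (g3 n)).symm.trans (y1 _ (g3 n))
  simp [ind] at this

theorem result : ∃ (G : Type) (_ : AddCommGroup G) (_ : LinearOrder G) (_ : TopologicalSpace G),
    IsTopologicalAddGroup G ∧ T35Space G ∧ OrderTopology G ∧ TotallyDisconnectedSpace G ∧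
    ¬ TopologicalSpace.SeparableSpace G ∧ ¬ IsGδ ({0} : Set G) ∧ ∀ S : Set G, ¬ Suitable S := by
  have i0 : K := (ub aleph0_le_continuum (ι := Empty) (by simp) nofun).choose
  have ne : ∀ α, (e α).1 α ≠ 0 := fun α => by simp [e, ind]
  refine ⟨A, inferInstance, inferInstance, inferInstance, inferInstance, inferInstance, inferInstance,
    ?_, fun ⟨D, h1, h2⟩ => ?_, fun h => ?_, fun S h => main S h.1 h.2.1 h.2.2⟩
  · have : TotallySeparatedSpace A := totallySeparatedSpace_iff_exists_isClopen.2 fun x y h => by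
      obtain ⟨i, hi⟩ := Function.ne_iff.1 (Subtype.coe_ne_coe.2 h)
      obtain ⟨j, hj⟩ := succ i
      exact ⟨N x j, ⟨N_closed _ _, N_open _ _⟩, fun _ _ => rfl, fun h => hi (h i hj).symm⟩
    infer_instance
  · obtain ⟨β, hβ⟩ := ub aleph0_le_continuum ((le_aleph0_iff_set_countable.2
      (h1.biUnion fun (x : A) _ => x.2)).trans aleph0_le_continuum) Subtype.val
    obtain ⟨j, hj⟩ := succ β
    obtain ⟨x, x1, x2⟩ := h2.inter_open_nonempty _ (N_open (e β) j) ⟨_, fun _ _ => rfl⟩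
    exact (hβ ⟨β, mem_biUnion x2 fun h => ne β ((x1 β hj).symm.trans h)⟩).false
  · obtain ⟨U, h1, h2⟩ := isGδ_iff_eq_iInter_nat.1 h
    choose α hα using fun n => N_sub ((h1 n).mem_nhds (mem_iInter.1 (h2.le rfl) n)) i0
    obtain ⟨β, hβ⟩ := ub aleph0_le_continuum (by simpa using aleph0_le_continuum) α
    exact (e_pos β).ne' (h2.ge (mem_iInter.2 fun n => hα n fun i hi => e_lt (hi.trans (hβ n))))

end Pool.Agent.Results.MP_41e59e_gt.NoSuitable
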